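import Pool.Agent.LRY.Stmts

/-! Squad LRY, row DEG. -/

set_option autoImplicit false

open NumberField

namespace Pool.Agent.LRY.H10

open Pool.Agent.LRY Pool.Agent.LRG.E

theorem deg_rank (E : Type) [Field E] [NumberField E] :
    Units.rank E + 1 ≤ Module.finrank ℚ E := by
  classical
  have h1 : Fintype.card (InfinitePlace E) ≤ Module.finrank ℚ E := by
    rw [← NumberField.Embeddings.card E ℂ]
    exact Fintype.card_le_of_surjective (fun φ : E →+* ℂ => InfinitePlace.mk φ)
      (fun w => ⟨w.embedding, InfinitePlace.mk_embedding w⟩)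
  have h2 : Units.rank E = Fintype.card (InfinitePlace E) - 1 := rfl
  have h3 : 0 < Module.finrank ℚ E := Module.finrank_pos
  omega

theorem deg_two {q a b : ℕ} (hq : q.Prime) (h : a * b = 2 * q) (hd : q ∣ a) : b ≤ 2 := by
  obtain ⟨c, rfl⟩ := hd
  have h1 : q * (c * b) = q * 2 := by
    rw [← mul_assoc, h, mul_comm]
  have h2 : c * b = 2 := Nat.eq_of_mul_eq_mul_left hq.pos h1
  exact Nat.le_of_dvd (by norm_num) ⟨c, by rw [← h2, mul_comm]⟩

theorem deg : DegStmt := by
  intro K _ _ E hdeg h3 h2
  have hr := deg_rank E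
  have hm : Module.finrank ℚ E * Module.finrank E K = Module.finrank ℚ K :=
    Module.finrank_mul_finrank ℚ E K
  have ha : 3 ≤ Module.finrank ℚ E := by omega
  rcases hdeg with h | h | ⟨q, hq, h⟩
  · rw [← hm] at h
    have h4 : 3 * 3 ≤ Module.finrank ℚ E * Module.finrank E K := Nat.mul_le_mul ha h3
    omega
  · rw [← hm] at h
    rcases Nat.prime_mul_iff.1 h with ⟨_, h5⟩ | ⟨_, h5⟩
    · omega
    · omega
  · rw [← hm] at h
    have h6 : q ∣ Module.finrank ℚ E * Module.finrank E K := ⟨2, by rw [h, mul_comm]⟩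
    rcases (Nat.Prime.dvd_mul hq).1 h6 with h7 | h7
    · have h8 := deg_two hq h h7
      omega
    · rw [mul_comm] at h
      have h8 := deg_two hq h h7
      omega

end Pool.Agent.LRY.H10
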